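import Pool.Agent.V11244.CohCore

/-! # Cohen forcing does not preserve winning strategies of II in the Menger game -/

namespace Pool.Agent.Results.MP_18f314_lc.MengerNotPreserved

open Pool.Agent.Helper669.Forcing
open Pool.Agent.V11244.CohGame
open Pool.Agent.V11244.CohCore (Coh)

/-- Cohen forcing `Coh` (finite sequences of bits) is strongly proper for stationarily many
models, II has a winning strategy in the Menger game on the Cantor space, and all conditions
force that on the ground model Cantor space, with the ground model topology as a base, II has no
winning strategy in the Menger game, even if I plays only covers by ground model open sets. -/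
theorem result :
    StronglyProper Coh ∧
    IIWinsFin (OpenCovers (ℕ → Bool)) (OpenCovers (ℕ → Bool)) ∧
    ∀ p : Coh, p ∈ fnot (fIIWinsFin (P := Coh) (X := ℕ → Bool) fOpenCover fOpenCover) :=
  ⟨stronglyProper_of_countable, wins_of_compact, Pool.Agent.V11244.CohCore.no_menger⟩

end Pool.Agent.Results.MP_18f314_lc.MengerNotPreserved
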